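import Pool.Agent.Helper96.LUR.Core
import Pool.Agent.Helper96.LUR.Kadec
import Pool.Agent.Helper96.LUR.Troy
import Pool.Agent.Helper96.LUR.Tree
import Pool.Agent.Helper96.LUR.NotLUR

/-!
# MP_234257_an: a Banach space with an equivalent LUR norm which is Lipschitz homeomorphic to a
Banach space all of whose equivalent norms are neither strictly convex nor Kadec-Klee
-/

set_option autoImplicit false

open Filter Topology Set
open scoped NNReal

namespace Pool.Agent.Results.MP_234257_an.NoRotundKadec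

/-- `N` is a norm on `X` equivalent to the given norm of `X`. -/
def IsEquivNorm {X : Type} [NormedAddCommGroup X] [NormedSpace ℝ X] (N : X → ℝ) : Prop :=
  (∀ x y : X, N (x + y) ≤ N x + N y) ∧ (∀ (a : ℝ) (x : X), N (a • x) = |a| * N x) ∧
    ∃ c C : ℝ, 0 < c ∧ 0 < C ∧ ∀ x : X, c * ‖x‖ ≤ N x ∧ N x ≤ C * ‖x‖

/-- The norm `N` is locally uniformly rotund. -/
def IsLUR {X : Type} [NormedAddCommGroup X] [NormedSpace ℝ X] (N : X → ℝ) : Prop :=
  ∀ (x : X) (z : ℕ → X), N x = 1 → (∀ n, N (z n) = 1) →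
    Tendsto (fun n => N (z n + x)) atTop (𝓝 2) → Tendsto (fun n => N (z n - x)) atTop (𝓝 0)

/-- On the sphere of `N` there are a point `y` and a sequence `z n` bounded away from `y`, which
converges weakly to `y` and such that all the segments from `y` to `z n` lie on the sphere. -/
def FlatWeak {Y : Type} [NormedAddCommGroup Y] [NormedSpace ℝ Y] (N : Y → ℝ) : Prop :=
  ∃ (y : Y) (z : ℕ → Y) (c : ℝ), 0 < c ∧ N y = 1 ∧
    (∀ n, N (z n) = 1 ∧ N (y + z n) = 2 ∧ c ≤ N (z n - y)) ∧
    ∀ g : Y →L[ℝ] ℝ, Tendsto (fun n => g (z n)) atTop (𝓝 (g y))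

open Pool.Agent.LUR

lemma lur_of_frozen {X : Type} [NormedAddCommGroup X] [NormedSpace ℝ X] (h : Frozen X) :
    ∃ N : X → ℝ, IsEquivNorm N ∧ IsLUR N := by
  obtain ⟨N, h1, h2, h3, h4⟩ := h
  refine ⟨N, ⟨h1, h2, h3⟩, fun x z hx hz hl => ?_⟩
  obtain ⟨c, C, hc, hC, hb⟩ := h3
  rw [Metric.tendsto_atTop]
  intro ε hε
  obtain ⟨δ, hδ, h5⟩ := h4 x hx ε hε
  rw [Metric.tendsto_atTop] at hl
  obtain ⟨n0, hn0⟩ := hl δ hδ
  refine ⟨n0, fun n hn => ?_⟩
  have h6 := hn0 n hn
  rw [Real.dist_eq, abs_lt] at h6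
  have h7 := h5 (z n) (hz n) (by rw [add_comm x]; linarith [h6.1])
  have h8 : N (z n - x) = N (x - z n) := by
    have h9 := h2 (-1) (x - z n)
    rw [abs_neg, abs_one, one_mul, neg_one_smul, neg_sub] at h9
    exact h9
  rw [Real.dist_eq, sub_zero, h8, abs_of_nonneg ((mul_nonneg hc.le (norm_nonneg _)).trans (hb _).1)]
  exact h7

/-- a bounded sequence with disjoint supports is weakly null -/
lemma weak_null (η : ℕ → YY) (B : ℝ) (hB : 0 ≤ B) (hη : ∀ i, ‖η i‖ ≤ B)
    (hs : ∀ (u : Nd) (i j : ℕ), ev u (η i) ≠ 0 → ev u (η j) ≠ 0 → i = j) (g : YY →L[ℝ] ℝ) :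
    Tendsto (fun i => g (η i)) atTop (𝓝 0) := by
  classical
  have hsum : Summable fun i => |g (η i)| := by
    apply summable_of_sum_le (c := ‖g‖ * B) (fun i => abs_nonneg _)
    intro F
    have h1 : ∑ i ∈ F, |g (η i)| = g (∑ i ∈ F, (SignType.sign (g (η i)) : ℝ) • η i) := by
      rw [map_sum]
      refine Finset.sum_congr rfl fun i _ => ?_
      rw [map_smul, smul_eq_mul, sign_mul_self]
    have h2 : ‖∑ i ∈ F, (SignType.sign (g (η i)) : ℝ) • η i‖ ≤ B := by
      refine YY.norm_le _ hB fun u => ?_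
      rw [map_sum]
      by_cases h : ∃ i ∈ F, ev u (η i) ≠ 0
      · obtain ⟨i, hi, hu⟩ := h
        rw [Finset.sum_eq_single_of_mem i hi fun j _ hj => by
          rw [map_smul, smul_eq_mul]
          by_contra hc
          exact hj (hs u j i (right_ne_zero_of_mul hc) hu)]
        rw [map_smul, smul_eq_mul, abs_mul]
        have h3 : |(SignType.sign (g (η i)) : ℝ)| ≤ 1 := by
          rcases SignType.sign (g (η i)) with _ | _ | _ <;> simp
        have h4 := (YY.abs_ev_le (η i) u).trans (hη i)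
        calc _ ≤ 1 * B := mul_le_mul h3 h4 (abs_nonneg _) zero_le_one
          _ = B := one_mul B
      · push Not at h
        rw [Finset.sum_eq_zero fun i hi => by rw [map_smul, h i hi, smul_zero], abs_zero]
        exact hB
    rw [h1]
    calc _ ≤ ‖g (∑ i ∈ F, (SignType.sign (g (η i)) : ℝ) • η i)‖ := Real.le_norm_self _
      _ ≤ ‖g‖ * ‖∑ i ∈ F, (SignType.sign (g (η i)) : ℝ) • η i‖ := g.le_opNorm _
      _ ≤ ‖g‖ * B := mul_le_mul_of_nonneg_left h2 (norm_nonneg g)
  have h3 := hsum.tendsto_atTop_zero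
  exact (tendsto_zero_iff_abs_tendsto_zero _).2 h3

/-- every equivalent norm on the tree space has the bad property -/
theorem flat_YY (N : YY → ℝ) (hN : IsEquivNorm N) : FlatWeak N := by
  classical
  obtain ⟨hadd, hsmul, c, C, hc, hC, hb⟩ := hN
  have h : IsN N c C := ⟨hadd, hsmul, fun x => (hb x).1, fun x => (hb x).2, hc, hC⟩
  obtain ⟨t, ht⟩ := h.exists_star
  set m := mu N t with hm
  have hm0 : 0 ≤ m := by
    have : Nonempty (SS t) := ⟨⟨0, zero_mem_SS t⟩⟩
    exact le_ciInf fun φ => h.nonneg _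
  have key : ∀ u, t ≤ u → N (fY u) = m := by
    intro u hu
    apply le_antisymm
    · exact h.N_fY_le hm0 fun i => ht _ (hu.trans (u.le_suc i))
    · have := h.mu_le (zero_mem_SS u)
      rw [add_zero, ht u hu] at this
      exact this
  have hmpos : 0 < m := by
    have h1 := h.lb (fY t)
    rw [key t le_rfl] at h1
    have h2 := one_le_norm_fY t
    nlinarith
  have hinv : 0 < m⁻¹ := inv_pos.2 hmpos
  have hnorm : ∀ u, t ≤ u → N (m⁻¹ • fY u) = 1 := fun u hu => by
    rw [hsmul, key u hu, abs_of_pos hinv, inv_mul_cancel₀ hmpos.ne']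
  refine ⟨m⁻¹ • fY t, fun n => m⁻¹ • fY (t.suc n), c * m⁻¹, by positivity, hnorm t le_rfl,
    fun n => ⟨hnorm _ (t.le_suc n), ?_, ?_⟩, ?_⟩
  · apply le_antisymm
    · refine (hadd _ _).trans_eq ?_
      rw [hnorm t le_rfl, hnorm _ (t.le_suc n)]
      norm_num
    · have h1 : m⁻¹ • fY t + m⁻¹ • fY (t.suc n)
          = (2 * m⁻¹) • (fY t + (2 : ℝ)⁻¹ • (fY (t.suc n) - fY t)) := by
        rw [smul_add, smul_smul, mul_comm 2 m⁻¹, mul_assoc,
          mul_inv_cancel₀ (by norm_num : (2:ℝ) ≠ 0), mul_one, smul_sub, mul_smul, two_smul, smul_add]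
        abel
      rw [h1, hsmul, abs_of_pos (by positivity)]
      have h2 := h.mu_le (SS_smul (2 : ℝ)⁻¹ (SS_sub (t.le_suc n)))
      rw [← hm] at h2
      calc (2 : ℝ) = 2 * m⁻¹ * m := by
            rw [mul_assoc, inv_mul_cancel₀ hmpos.ne', mul_one]
        _ ≤ _ := mul_le_mul_of_nonneg_left h2 (by positivity)
  · rw [← smul_sub, hsmul, abs_of_pos hinv]
    have h1 := h.lb (fY (t.suc n) - fY t)
    have h2 : 1 ≤ ‖fY (t.suc n) - fY t‖ := by
      have h3 := YY.abs_ev_le (fY (t.suc n) - fY t) (t.suc n)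
      rw [map_sub, ev_fY, ev_fY, if_pos le_rfl, if_neg (not_le_of_gt (t.lt_suc n)), sub_zero,
        abs_one] at h3
      exact h3
    have h3 : c ≤ N (fY (t.suc n) - fY t) := by nlinarith
    rw [mul_comm]
    exact mul_le_mul_of_nonneg_left h3 hinv.le
  · intro g
    have hsupp : ∀ i u, ev u (fY (t.suc i) - fY t) ≠ 0 → u.val t.len = i := by
      intro i u hu
      have ht : t < u := by
        by_contra hc
        exact hu (SS_sub (t.le_suc i) u hc)
      by_cases h1 : u ≤ t.suc i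
      · exact Nd.val_of_lt_of_le_suc ht h1
      · exfalso
        apply hu
        rw [map_sub, ev_fY, ev_fY, if_neg h1, if_neg (not_le_of_gt ht), sub_zero]
    have h1 := weak_null (fun i => fY (t.suc i) - fY t) 2 (by norm_num) (fun i => by
      refine (norm_sub_le _ _).trans ?_
      linarith [norm_fY_le (t.suc i), norm_fY_le t])
      (fun u i j hi hj => (hsupp i u hi).symm.trans (hsupp j u hj)) g
    have h2 : (fun i => g (m⁻¹ • fY (t.suc i)))
        = fun i => m⁻¹ * g (fY (t.suc i) - fY t) + g (m⁻¹ • fY t) := by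
      funext i
      simp only [map_smul, map_sub, smul_eq_mul]
      ring
    rw [h2]
    have h3 := (h1.const_mul m⁻¹).add_const (g (m⁻¹ • fY t))
    rw [mul_zero, zero_add] at h3
    exact h3

lemma flat_prod {K Y : Type} [NormedAddCommGroup K] [NormedSpace ℝ K] [NormedAddCommGroup Y]
    [NormedSpace ℝ Y] (hY : ∀ N : Y → ℝ, IsEquivNorm N → FlatWeak N) (N : K × Y → ℝ)
    (hN : IsEquivNorm N) : FlatWeak N := by
  obtain ⟨h1, h2, c, C, hc, hC, h3⟩ := hN
  obtain ⟨y, z, c', hc', hy, hz, hw⟩ := hY (fun y => N (0, y))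
    ⟨fun x y => by simpa using h1 (0, x) (0, y), fun a x => by simpa using h2 a (0, x),
      c, C, hc, hC, fun x => by simpa [Prod.norm_def] using h3 (0, x)⟩
  refine ⟨(0, y), fun n => (0, z n), c', hc', hy, fun n => ⟨(hz n).1, ?_, ?_⟩, fun g => ?_⟩
  · simpa using (hz n).2.1
  · simpa using (hz n).2.2
  · exact hw (g.comp (ContinuousLinearMap.inr ℝ K Y))

/-- There are real Banach spaces `X` and `Y` and a bijection `f : X → Y` such that `f` and its
inverse are 2-Lipschitz, `X` has an equivalent LUR norm, and for every equivalent norm `N` on `Y`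
there are a point `y` and a sequence `z n` on the unit sphere of `N` with `N (y + z n) = 2` and
`N (z n - y) ≥ c > 0` for all `n`, such that `z n` converges weakly to `y`. -/
theorem result :
    ∃ (X Y : Type) (_ : NormedAddCommGroup X) (_ : NormedSpace ℝ X) (_ : CompleteSpace X)
      (_ : NormedAddCommGroup Y) (_ : NormedSpace ℝ Y) (_ : CompleteSpace Y),
      (∃ f : X ≃ Y, LipschitzWith 2 f ∧ LipschitzWith 2 f.symm) ∧
      (∃ N : X → ℝ, IsEquivNorm N ∧ IsLUR N) ∧
      ∀ N : Y → ℝ, IsEquivNorm N → FlatWeak N := by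
  have h1 : LURn (XA (univ : Set (YT Nd))) :=
    LURn_free
      (fun X _ _ I F R M h1 h2 h3 h4 h5 h6 h7 =>
        LURn_of_decomp F R M h1 h2 h3 h4 h5 h6 h7)
      (fun X _ _ _ _ => LURn_of_separable)
      Nd.countable_Iic
  have hS : IsClosed (YT Nd : Set (LI Nd)) := YV_closed _
  have c1 : CompleteSpace (YT Nd) := hS.completeSpace_coe
  have c2 : CompleteSpace (XA (univ : Set (YT Nd))) := (XA_closed _).completeSpace_coe
  have hk : IsClosed (LinearMap.ker (bY hS : XA (univ : Set (YT Nd)) →ₗ[ℝ] (YT Nd)) :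
      Set (XA (univ : Set (YT Nd)))) := ContinuousLinearMap.isClosed_ker (bY hS)
  have c3 : CompleteSpace (LinearMap.ker (bY hS : XA (univ : Set (YT Nd)) →ₗ[ℝ] (YT Nd))) :=
    hk.completeSpace_coe
  exact ⟨XA (univ : Set (YT Nd)),
    (LinearMap.ker (bY hS : XA (univ : Set (YT Nd)) →ₗ[ℝ] (YT Nd))) × (YT Nd),
    inferInstance, inferInstance, c2, inferInstance, inferInstance, inferInstance,
    ⟨homeo hS, homeo_lip hS, homeo_symm_lip hS⟩, lur_of_frozen h1.frozen,
    fun N hN => flat_prod (fun N hN => flat_YY N hN) N hN⟩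

end Pool.Agent.Results.MP_234257_an.NoRotundKadec
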